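import Pool.Agent.Lib.H68E.Final

/-!
Second out-neighbourhoods in Eulerian oriented graphs with lengths on the arcs.
-/

namespace Pool.Agent.Results.MP_e5893c_co.ArcLengths

/-- The triples `(u, w, x)` such that some path `u → v → w` has length `x` and either `u → w` is an arc of a length
different from `x`, or `u → w` is not an arc and some path `u → v → w` is shorter than `x`. The set is empty if the
length of the paths `u → v → w` depends only on `(u, w)` and is the length of the arc `u → w` if there is one. -/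
def inconsistent {V : Type} (G : Digraph V) (len : V → V → ℝ) : Set (V × V × ℝ) :=
  {z | (∃ v, G.Adj z.1 v ∧ G.Adj v z.2.1 ∧ z.2.2 = len z.1 v + len v z.2.1) ∧
    ((G.Adj z.1 z.2.1 ∧ z.2.2 ≠ len z.1 z.2.1) ∨
      (¬ G.Adj z.1 z.2.1 ∧ ∃ v, G.Adj z.1 v ∧ G.Adj v z.2.1 ∧ len z.1 v + len v z.2.1 < z.2.2))}

/-- **Second neighbourhoods and arc lengths.** In every Eulerian oriented graph, for all positive lengths of the arcs,
the number of arcs is at most the sum of the sizes of the second out-neighbourhoods plus the number of inconsistent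
triples. -/
theorem result (V : Type) [Fintype V] (G : Digraph V) (hloop : ∀ v, ¬ G.Adj v v)
    (hdigon : ∀ u v, G.Adj u v → ¬ G.Adj v u)
    (hbal : ∀ v, {w | G.Adj v w}.ncard = {w | G.Adj w v}.ncard)
    (len : V → V → ℝ) (hlen : ∀ u v, G.Adj u v → 0 < len u v) :
    ∑ v, {w | G.Adj v w}.ncard ≤
      ∑ v, {w | w ≠ v ∧ ¬ G.Adj v w ∧ ∃ u, G.Adj v u ∧ G.Adj u w}.ncard + (inconsistent G len).ncard :=
  Pool.Agent.Lib.H68E.main G.Adj hdigon hbal len hlen

end Pool.Agent.Results.MP_e5893c_co.ArcLengths
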