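import Mathlib
import Pool.Agent.Lib.H93M.Final

/-!
# MP_e5893c_co: Eulerian orientations of complete multipartite graphs
-/

set_option autoImplicit false

namespace Pool.Agent.Results.MP_e5893c_co.MultipartiteOrientations

open Finset Pool.Agent.Lib.H93M

/-- Let `G` be an Eulerian orientation of a complete multipartite graph (the parts are the classes of
non-adjacent vertices), let `a` be at least the size of every part and let `A` be a union of parts. Then the
number of arcs with tail in `A` is at most the number of ordered pairs `(v, w)` at distance exactly two with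
`v ∈ A`, plus the sum over `v ∈ A` of `a` minus the size of the part of `v`. For parts of equal size and `A` the
set of all vertices this is the inequality of the question. -/
theorem result (V : Type) [Fintype V] (G : Digraph V)
    (hdigon : ∀ u v, G.Adj u v → ¬ G.Adj v u)
    (hEuler : ∀ v, {w | G.Adj v w}.ncard = {w | G.Adj w v}.ncard)
    (hparts : ∀ u v w, ¬ G.Adj u v → ¬ G.Adj v u → ¬ G.Adj v w → ¬ G.Adj w v → ¬ G.Adj u w)
    (a : ℕ) (ha : ∀ v, {u | ¬ G.Adj v u ∧ ¬ G.Adj u v}.ncard ≤ a)
    (A : Finset V) (hA : ∀ v ∈ A, ∀ x, ¬ G.Adj v x → ¬ G.Adj x v → x ∈ A) :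
    ∑ v ∈ A, {w | G.Adj v w}.ncard ≤
      ∑ v ∈ A, {w | w ≠ v ∧ ¬ G.Adj v w ∧ ∃ u, G.Adj v u ∧ G.Adj u w}.ncard +
      ∑ v ∈ A, (a - {u | ¬ G.Adj v u ∧ ¬ G.Adj u v}.ncard) :=
  multipartite G hdigon hEuler hparts a ha A hA

end Pool.Agent.Results.MP_e5893c_co.MultipartiteOrientations
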