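import Mathlib
import Pool.Agent.Lib.H93Q.Main

/-!
# MP_e5893c_co: all Eulerian oriented graphs, constant 0.749
-/

set_option autoImplicit false

namespace Pool.Agent.Results.MP_e5893c_co.NearThreeQuarters

open Finset Pool.Agent.Lib.H93Q

/-- For every finite digraph without loops and directed 2-cycles in which every vertex has equal in- and
out-degree, 1000 times the number of ordered pairs at distance exactly two is at least 749 times the number of
arcs. -/
theorem result (V : Type) [Fintype V] (G : Digraph V)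
    (hdigon : ∀ u v, G.Adj u v → ¬ G.Adj v u)
    (hEuler : ∀ v, {w | G.Adj v w}.ncard = {w | G.Adj w v}.ncard) :
    749 * ∑ v, {w | G.Adj v w}.ncard ≤
      1000 * ∑ v, {w | w ≠ v ∧ ¬ G.Adj v w ∧ ∃ u, G.Adj v u ∧ G.Adj u w}.ncard := by
  classical
  have hcard : ∀ (P : V → Prop), ((({w | P w} : Set V).ncard : ℕ) : ℝ) = ∑ w, if P w then (1 : ℝ) else 0 := by
    intro P
    rw [Set.ncard_eq_toFinset_card', Finset.sum_boole]
    congr 2
    ext w
    simp
  have hdg : ∀ v, (({w | G.Adj v w}.ncard : ℕ) : ℝ) = dg G.Adj v := by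
    intro v
    rw [hcard]
    unfold dg
    exact sum_congr rfl fun w _ => by split_ifs <;> rfl
  have he : ∀ v, dg G.Adj v = dg (fun a b => G.Adj b a) v := by
    intro v
    rw [← hdg, hEuler v, hcard]
    unfold dg
    exact sum_congr rfl fun w _ => by split_ifs <;> rfl
  have h1 := main_real hdigon he
  have h2 : ∀ v, (({w | w ≠ v ∧ ¬ G.Adj v w ∧ ∃ u, G.Adj v u ∧ G.Adj u w}.ncard : ℕ) : ℝ) =
      ∑ w, if Db G.Adj v w = true then (1 : ℝ) else 0 := by
    intro v
    rw [hcard]
    refine sum_congr rfl fun w _ => ?_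
    have h3 : (w ≠ v ∧ ¬ G.Adj v w ∧ ∃ u, G.Adj v u ∧ G.Adj u w) ↔ Db G.Adj v w = true := by
      simp only [Db, decide_eq_true_eq]
      constructor
      · rintro ⟨_, h⟩
        exact h
      · rintro ⟨h, u, hu, hw⟩
        refine ⟨?_, h, u, hu, hw⟩
        rintro rfl
        exact hdigon _ _ hu hw
    by_cases h4 : Db G.Adj v w = true
    · rw [if_pos h4, if_pos (h3.2 h4)]
    · rw [if_neg h4, if_neg fun h => h4 (h3.1 h)]
  have h5 : (749 : ℝ) * ∑ v, (({w | G.Adj v w}.ncard : ℕ) : ℝ) ≤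
      1000 * ∑ v, (({w | w ≠ v ∧ ¬ G.Adj v w ∧ ∃ u, G.Adj v u ∧ G.Adj u w}.ncard : ℕ) : ℝ) := by
    have h6 : ∑ v, (({w | G.Adj v w}.ncard : ℕ) : ℝ) = ∑ v, ∑ w, (if G.Adj v w then (1 : ℝ) else 0) :=
      sum_congr rfl fun v _ => hcard _
    rw [h6, sum_congr rfl fun v _ => h2 v]
    have h7 : (KC : ℝ) = 6433861009408 := by norm_num [KC]
    have h8 : (KK : ℝ) = 8589934592000 := by norm_num [KK]
    rw [h7, h8] at h1
    linarith
  exact_mod_cast h5

end Pool.Agent.Results.MP_e5893c_co.NearThreeQuarters
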