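import Mathlib
import Pool.Agent.Lib.H93M.Two

/-!
# MP_e5893c_co: Eulerian oriented graphs in which each vertex has at most two non-neighbours
-/

set_option autoImplicit false

namespace Pool.Agent.Results.MP_e5893c_co.TwoNonNeighbours

open Pool.Agent.Lib.H93M

/-- Let `G` be an Eulerian oriented graph in which each vertex has at most two non-neighbours (other vertices
not joined to it by an arc). Then the number of arcs is at most the number of ordered pairs `(v, w)` at distance
exactly two. -/
theorem result (V : Type) [Fintype V] (G : Digraph V)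
    (hdigon : ∀ u v, G.Adj u v → ¬ G.Adj v u)
    (hEuler : ∀ v, {w | G.Adj v w}.ncard = {w | G.Adj w v}.ncard)
    (hmiss : ∀ v, {u | u ≠ v ∧ ¬ G.Adj v u ∧ ¬ G.Adj u v}.ncard ≤ 2) :
    ∑ v, {w | G.Adj v w}.ncard ≤
      ∑ v, {w | w ≠ v ∧ ¬ G.Adj v w ∧ ∃ u, G.Adj v u ∧ G.Adj u w}.ncard :=
  two_missing G hdigon hEuler hmiss

end Pool.Agent.Results.MP_e5893c_co.TwoNonNeighbours
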